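import Pool.Agent.Helper64.BQ.Main
import Pool.Agent.KT2.All

/-!
The Grothendieck period conjecture for abelian varieties of ball type over the algebraic numbers.

`E = End(A) ⊗ ℚ` contains a CM field `K` which is its own centralizer in `E`, the Rosati involution
is complex conjugation on `K`, and `n = 2 dim A / [K : ℚ] ≥ 3`. The signature of `K` is `(n - 1, 1)`
at the embeddings over one place `s` of the centre of `E`, and this place is separated from the
others: for every other place `t` some automorphism of `ℂ` maps `s` to a mixed and `t` to a definite
place (for instance if all places different from `s` and its conjugate are definite). Such `A` are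
the fibres of the families over the arithmetic quotients of the complex ball by unitary groups of
signature `(n - 1, 1)`.

A class in `H^{2k}(A^m, ℂ)` lies in `H^{2k}_{Gr}(A^m, ℚ(k)) = H^{2k}_{dR}(A^m) ∩ H^{2k}(A^m, ℚ(k))`
if and only if it is a linear combination, with rational coefficients, of `k`-fold products of
classes of divisors `h^{-1}(D)`, `D` a hyperplane section of `A` and `h : A^m → A` a homomorphism
(tensor `ℚ`), if (`IsBallRange`, `d = n` for `n` odd, `d = n / 2` for `n` even)

(a) `E = K`, `m = 1`, and `k < d` or `k > dim A - d`; or

(b) `E` has no anti-automorphism which is the identity on its centre (equivalently, the index of the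
simple algebra `E` is at least `3`), and the centre of `E` is imaginary quadratic (all `k` and `m`) or
`k < d` or `k > m dim A - d`; or

(c) `A` is simple, `dim A ≥ 3`, `E` contains an imaginary quadratic field `F` of signature
`(dim A - 1, 1)`, `k` is arbitrary, and `m = 1`, or `m` is arbitrary, `dim A` is even and `E = F`.

No hypothesis other than the stated ones is made, and nothing is assumed.
-/

namespace Pool.Agent.Helper64.Kept.BallQuotients

open Pool.Agent.GPC

theorem result (A : AbVar) (m k : ℕ) (h : A.IsBallRange m k)
    (α : Form (fun _ : Unit => A) (fun _ => m) (2 * k)) :
    IsGrothendieck (fun _ : Unit => A) (fun _ => m) k α ↔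
      IsDivisorial (fun _ : Unit => A) (fun _ => m) k α :=
  Pool.Agent.Helper64.BQ.main KT2.All.Fin_ KT2.All.Fid_ A m k h α

end Pool.Agent.Helper64.Kept.BallQuotients
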