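import Pool.Agent.BSM.All

/-!
The Grothendieck period conjecture for all simple abelian varieties over the algebraic numbers with
an endomorphism `J` (tensor `ℚ`), `J^2 = -d`, acting with signature `(n - 1, 1)`, `n = dim A ≥ 3`,
and for all their powers if `n` is even and all endomorphisms are in `ℚ(J)`.

A class in `H^{2k}(A^m, ℂ)` lies in `H^{2k}_{Gr}(A^m, ℚ(k)) = H^{2k}_{dR}(A^m) ∩ H^{2k}(A^m, ℚ(k))`
if and only if it is a linear combination, with rational coefficients, of `k`-fold products of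
classes of divisors `h^{-1}(D)`, `D` a hyperplane section of `A` and `h : A^m → A` a homomorphism
(tensor `ℚ`). No hypothesis other than the stated ones is made, and nothing is assumed.
-/

namespace Pool.Agent.Results.MP_bf54cf_ag.BallSimple

open Pool.Agent.GPC

/-- `hA`: `A` is simple; `hs`: an eigenspace of `J` in the Hodge filtration `F^0 H_1(A)` has
dimension `1`; `hm`: the power is `A` itself, or `n` is even and every endomorphism (tensor `ℚ`) is
`a + b J` with rational `a`, `b`. -/
theorem result (A : AbVar) (hA : A.IsSimple) (hn : 3 ≤ A.g) (d : ℚ) (hd : 0 < d)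
    (J : A.H1 → A.H1) (hJ : A.IsEnd J) (hJ2 : ∀ v, J (J v) = (-(d : ℂ)) • v)
    (hs : ∃ z : ℂ, z ^ 2 = -(d : ℂ) ∧
      Module.finrank ℂ (Submodule.span ℂ {v : A.H1 | J v = z • v ∧ A.IsFil v}) = 1)
    (m k : ℕ) (hm : m = 1 ∨ (Even A.g ∧
      ∀ f, A.IsEnd f → ∃ a b : ℚ, ∀ v, f v = (a : ℂ) • v + (b : ℂ) • J v))
    (α : Form (fun _ : Unit => A) (fun _ => m) (2 * k)) :
    IsGrothendieck (fun _ : Unit => A) (fun _ => m) k α ↔
      IsDivisorial (fun _ : Unit => A) (fun _ => m) k α := by
  obtain ⟨z, hz, hf⟩ := hs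
  exact BSM.All.FinS_ A d (hJ.linear.mk' J) z hA hn hd hJ hJ2 hz hf m k hm α

end Pool.Agent.Results.MP_bf54cf_ag.BallSimple
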